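import Mathlib
import Pool.Agent.H20.Horo

open Filter Topology

theorem Pool.Agent.Results.MP_76953b_al.FiniteBoundary.result
    (G : Type) [Group G] (hG : Group.FG G) (d : G → G → ℝ)
    (d_self : ∀ x, d x x = 0) (d_sep : ∀ x y, d x y = 0 → x = y)
    (d_comm : ∀ x y, d x y = d y x) (d_tri : ∀ x y z, d x z ≤ d x y + d y z)
    (d_int : ∀ x y, ∃ n : ℤ, d x y = n)
    (d_left : ∀ g x y, d (g * x) (g * y) = d x y)
    (d_proper : ∀ (x : G) (r : ℝ), {y | d x y ≤ r}.Finite)
    (hnot : ¬ ∃ H : Subgroup G, IsCyclic H ∧ H.FiniteIndex) :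
    {f : G → ℝ | ∃ x : ℕ → G, Tendsto (fun n => d (x n) 1) atTop atTop ∧
      ∀ y, Tendsto (fun n => d (x n) y - d (x n) 1) atTop (𝓝 (f y))}.Infinite := by
  intro hfin
  choose D hD using d_int
  let F : G → ℤ := fun z => D 1 z
  have hdF : ∀ x y, d x y = F (x⁻¹ * y) := fun x y => by
    rw [← d_left x⁻¹ x y, inv_mul_cancel, hD]
  have hF : Pool.Agent.H20.Horo.Len F := by
    refine ⟨fun x => ?_, fun x y => ?_, fun r => ?_⟩
    · have h1 := hdF x 1
      have h2 := hdF 1 x
      rw [d_comm] at h1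
      rw [h1] at h2
      simpa using h2
    · have h := d_tri 1 x (x * y)
      rw [hdF, hdF, hdF] at h
      simp only [inv_one, one_mul, inv_mul_cancel_left] at h
      exact_mod_cast h
    · refine (d_proper 1 r).subset fun x hx => ?_
      simp only [Set.mem_ofPred_eq] at hx ⊢
      rw [hdF, inv_one, one_mul]
      exact_mod_cast hx
  have hB : (Pool.Agent.H20.Horo.Bd F).Finite := by
    refine Set.Finite.of_finite_image (f := fun (f : G → ℤ) (y : G) => (f y : ℝ))
      (hfin.subset ?_) ?_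
    · rintro _ ⟨f, ⟨x, h1, h2⟩, rfl⟩
      refine ⟨fun n => (x n)⁻¹, ?_, fun y => ?_⟩
      · simp only [hdF, inv_inv, mul_one]
        exact tendsto_intCast_atTop_atTop.comp h1
      · refine tendsto_const_nhds.congr' ?_
        filter_upwards [h2 y] with n hn
        simp only [hdF, inv_inv, mul_one]
        exact_mod_cast hn.symm
    · intro f _ g _ h
      funext y
      exact Int.cast_injective (α := ℝ) (congrFun h y)
  obtain ⟨u, hu⟩ := Pool.Agent.H20.Horo.main hG hF hB
  exact hnot ⟨_, inferInstance, hu⟩
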